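import Mathlib

/-!
# Lattice points of dilated convex bodies
-/

namespace Pool.Agent.TH264.MC

open MeasureTheory Filter Topology Set
open scoped Pointwise

variable {k : ℕ}

/-- the integer points `a` with `a / n ∈ X` -/
def pts (X : Set (Fin k → ℝ)) (n : ℕ) : Set (Fin k → ℤ) :=
  {a | (fun i => (a i : ℝ) / n) ∈ X}

theorem pts_mono {X Y : Set (Fin k → ℝ)} (h : X ⊆ Y) (n : ℕ) : pts X n ⊆ pts Y n :=
  fun _ ha => h ha

theorem pts_finite {X : Set (Fin k → ℝ)} (hX : Bornology.IsBounded X) {n : ℕ} (hn : 0 < n) :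
    (pts X n).Finite := by
  obtain ⟨R, hR⟩ := hX.exists_norm_le
  have hn' : (0 : ℝ) < n := by exact_mod_cast hn
  have : pts X n ⊆ Set.pi Set.univ (fun _ => Set.Icc (-⌈R * n⌉) ⌈R * n⌉) := by
    intro a ha i _
    have h1 := hR _ ha
    have h2 : |(a i : ℝ) / n| ≤ R := by
      have := norm_le_pi_norm (fun i => (a i : ℝ) / n) i
      rw [Real.norm_eq_abs] at this
      exact this.trans h1
    rw [abs_div, abs_of_pos hn', div_le_iff₀ hn'] at h2
    have h3 := abs_le.1 h2
    have h4 := Int.le_ceil (R * n)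
    constructor
    · have : (-(⌈R * n⌉ : ℝ)) ≤ a i := by linarith [h3.1]
      exact_mod_cast this
    · have : (a i : ℝ) ≤ (⌈R * n⌉ : ℝ) := by linarith [h3.2]
      exact_mod_cast this
  exact (Set.Finite.pi (fun _ => Set.finite_Icc _ _)).subset this

theorem card_pts (X : Set (Fin k → ℝ)) {n : ℕ} (hn : 0 < n) :
    Nat.card ↑(X ∩ (n : ℝ)⁻¹ • (Submodule.span ℤ (Set.range (Pi.basisFun ℝ (Fin k))) : Set (Fin k → ℝ)))
      = (pts X n).ncard := by
  have : NeZero n := ⟨hn.ne'⟩
  have hn' : (n : ℝ) ≠ 0 := by exact_mod_cast hn.ne'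
  rw [← Nat.card_coe_set_eq]
  symm
  refine Nat.card_congr ⟨fun a => ⟨fun i => (a.1 i : ℝ) / n, a.2, ?_⟩,
    fun v => ⟨fun i => ⌊(n : ℝ) * v.1 i⌋, ?_⟩, ?_, ?_⟩
  · have := (BoxIntegral.unitPartition.mem_smul_span_iff (n := n)
      (v := fun i => (a.1 i : ℝ) / n)).2 (fun i => ⟨a.1 i, by simp; field_simp⟩)
    exact this
  · have hv := (BoxIntegral.unitPartition.mem_smul_span_iff (n := n) (v := v.1)).1 v.2.2
    have : (fun i => ((⌊(n : ℝ) * v.1 i⌋ : ℤ) : ℝ) / n) = v.1 := by
      funext i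
      obtain ⟨z, hz⟩ := hv i
      rw [← hz]
      simp only [algebraMap_int_eq, eq_intCast, Int.floor_intCast]
      have : (z : ℝ) = n * v.1 i := by simpa using hz
      rw [this]; field_simp
    show (fun i => ((⌊(n : ℝ) * v.1 i⌋ : ℤ) : ℝ) / n) ∈ X
    rw [this]; exact v.2.1
  · intro a
    ext i
    simp only
    rw [mul_div_cancel₀ _ hn', Int.floor_intCast]
  · intro v
    have hv := (BoxIntegral.unitPartition.mem_smul_span_iff (n := n) (v := v.1)).1 v.2.2
    ext i
    obtain ⟨z, hz⟩ := hv i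
    simp only
    rw [← hz]
    simp only [algebraMap_int_eq, eq_intCast, Int.floor_intCast]
    have : (z : ℝ) = n * v.1 i := by simpa using hz
    rw [this]; field_simp

/-- the number of integer points of `n X` is asymptotically `|X| n^k` -/
theorem tendsto_pts {X : Set (Fin k → ℝ)} (hc : Convex ℝ X) (hX : IsCompact X) :
    Tendsto (fun n : ℕ => ((pts X n).ncard : ℝ) / n ^ k) atTop (𝓝 (volume.real X)) := by
  have h := tendsto_card_div_pow_atTop_volume X hX.isBounded hX.measurableSet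
    (hc.addHaar_frontier volume)
  rw [Fintype.card_fin] at h
  refine h.congr' ?_
  filter_upwards [eventually_gt_atTop 0] with n hn
  rw [card_pts X hn]

end Pool.Agent.TH264.MC
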