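import Mathlib
import Pool.Agent.TH264.MC.Count

/-!
# The corner simplex: number of lattice points and volume
-/

namespace Pool.Agent.TH264.MC

open MeasureTheory Filter Topology Set
open scoped Pointwise

variable {k : ℕ}

/-- natural vectors with sum at most `n` -/
def sx (k n : ℕ) : Set (Fin k → ℕ) := {b | ∑ i, b i ≤ n}

theorem ncard_sx (k n : ℕ) : (sx k n).ncard = (n + k).choose k := by
  have h1 : (Finset.finsuppAntidiag (Finset.univ : Finset (Fin (k + 1))) n).card
      = (n + k).choose k := by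
    rw [Finset.card_finsuppAntidiag_nat_eq_choose]
    simp only [Finset.card_univ, Fintype.card_fin]
    have : k + 1 + n - 1 = n + k := by omega
    rw [this, Nat.choose_symm_add]
  rw [← h1, ← Nat.card_coe_set_eq, ← Nat.card_eq_finsetCard]
  refine Nat.card_congr ⟨fun b => ⟨Finsupp.equivFunOnFinite.symm
      (Fin.cons (n - ∑ i, b.1 i) b.1 : Fin (k + 1) → ℕ), ?_⟩,
    fun f => ⟨fun i => f.1 i.succ, ?_⟩, ?_, ?_⟩
  · have hb : ∑ i, b.1 i ≤ n := b.2
    rw [Finset.mem_finsuppAntidiag]
    refine ⟨?_, Finset.subset_univ _⟩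
    rw [Fin.sum_univ_succ]
    simp only [Finsupp.equivFunOnFinite_symm_apply_apply, Fin.cons_zero, Fin.cons_succ]
    omega
  · have hf := (Finset.mem_finsuppAntidiag.1 f.2).1
    rw [Fin.sum_univ_succ] at hf
    show ∑ i, f.1 (Fin.succ i) ≤ n
    omega
  · intro b
    ext i
    simp
  · intro f
    have hf := (Finset.mem_finsuppAntidiag.1 f.2).1
    rw [Fin.sum_univ_succ] at hf
    ext i
    simp only [Finsupp.equivFunOnFinite_symm_apply_apply]
    refine Fin.cases ?_ (fun j => ?_) i
    · simp only [Fin.cons_zero]; omega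
    · simp only [Fin.cons_succ]

theorem sx_finite (k n : ℕ) : (sx k n).Finite := by
  apply (Set.finite_Iic (fun _ : Fin k => n)).subset
  intro b hb i
  exact (Finset.single_le_sum (fun j _ => Nat.zero_le (b j)) (Finset.mem_univ i)).trans hb

/-- `#(sx k n) / n^k → 1/k!` -/
theorem tendsto_sx (k : ℕ) :
    Tendsto (fun n : ℕ => ((sx k n).ncard : ℝ) / n ^ k) atTop (𝓝 (1 / (k.factorial : ℝ))) := by
  have h1 : Tendsto (fun n : ℕ => (((n + k).choose k : ℕ) : ℝ) / ((n + k : ℕ) : ℝ) ^ k) atTop
      (𝓝 (1 / (k.factorial : ℝ))) := by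
    have h2 : Tendsto (fun n : ℕ => ((n.choose k : ℕ) : ℝ) / (n : ℝ) ^ k) atTop
        (𝓝 (1 / (k.factorial : ℝ))) := by
      have h3 := isEquivalent_choose k
      have h4 : Asymptotics.IsEquivalent atTop (fun n : ℕ => ((n.choose k : ℕ) : ℝ) / (n : ℝ) ^ k)
          (fun n : ℕ => ((n : ℝ) ^ k / (k.factorial : ℝ)) / (n : ℝ) ^ k) :=
        h3.div Asymptotics.IsEquivalent.refl
      have h5 : (fun n : ℕ => ((n : ℝ) ^ k / (k.factorial : ℝ)) / (n : ℝ) ^ k)
          =ᶠ[atTop] fun _ => 1 / (k.factorial : ℝ) := by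
        filter_upwards [eventually_gt_atTop 0] with n hn
        have : (n : ℝ) ≠ 0 := by exact_mod_cast hn.ne'
        field_simp
      exact h4.symm.tendsto_nhds (tendsto_const_nhds.congr' h5.symm)
    exact h2.comp (tendsto_add_atTop_nat k)
  have h6 : Tendsto (fun n : ℕ => ((((n + k : ℕ) : ℝ)) / n) ^ k) atTop (𝓝 (1 ^ k)) := by
    apply Tendsto.pow
    have h7 : Tendsto (fun n : ℕ => 1 + (k : ℝ) / n) atTop (𝓝 (1 + 0)) :=
      tendsto_const_nhds.add (tendsto_const_div_atTop_nhds_zero_nat (k : ℝ))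
    rw [add_zero] at h7
    refine h7.congr' ?_
    filter_upwards [eventually_gt_atTop 0] with n hn
    have : (n : ℝ) ≠ 0 := by exact_mod_cast hn.ne'
    push_cast
    field_simp
  have h8 := h1.mul h6
  rw [one_pow, mul_one] at h8
  refine h8.congr' ?_
  filter_upwards [eventually_gt_atTop 0] with n hn
  have h9 : (n : ℝ) ≠ 0 := by exact_mod_cast hn.ne'
  have h10 : ((n + k : ℕ) : ℝ) ≠ 0 := by
    have : 0 < n + k := by omega
    exact_mod_cast this.ne'
  rw [ncard_sx]
  rw [div_pow]
  field_simp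

/-- the corner simplex -/
def S (k : ℕ) : Set (Fin k → ℝ) := {x | (∀ i, 0 ≤ x i) ∧ ∑ i, x i ≤ 1}

theorem S_convex (k : ℕ) : Convex ℝ (S k) := by
  intro x hx y hy a b ha hb hab
  refine ⟨fun i => ?_, ?_⟩
  · have h1 := mul_nonneg ha (hx.1 i)
    have h2 := mul_nonneg hb (hy.1 i)
    simpa using add_nonneg h1 h2
  · have h1 : ∑ i, (a • x + b • y) i = a * ∑ i, x i + b * ∑ i, y i := by
      simp [Finset.sum_add_distrib, Finset.mul_sum]
    rw [h1]
    nlinarith [hx.2, hy.2]

theorem S_isClosed (k : ℕ) : IsClosed (S k) := by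
  have h1 : IsClosed {x : Fin k → ℝ | ∀ i, 0 ≤ x i} := by
    rw [Set.ofPred_forall]
    exact isClosed_iInter (fun i => isClosed_le continuous_const (continuous_apply i))
  exact h1.inter (isClosed_le (continuous_finsetSum _ (fun i _ => continuous_apply i))
    continuous_const)

theorem S_isCompact (k : ℕ) : IsCompact (S k) := by
  apply (isCompact_Icc (a := (0 : Fin k → ℝ)) (b := fun _ => 1)).of_isClosed_subset (S_isClosed k)
  intro x hx
  refine ⟨fun i => hx.1 i, fun i => ?_⟩
  exact (Finset.single_le_sum (fun j _ => hx.1 j) (Finset.mem_univ i)).trans hx.2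

/-- embedding of natural vectors as integer vectors -/
def toZ (b : Fin k → ℕ) : Fin k → ℤ := fun i => (b i : ℤ)

theorem toZ_injective : Function.Injective (toZ (k := k)) := by
  intro a b h
  funext i
  have := congrFun h i
  simpa [toZ] using this

theorem pts_S {n : ℕ} (hn : 0 < n) : pts (S k) n = toZ '' sx k n := by
  have hn' : (0 : ℝ) < n := by exact_mod_cast hn
  ext a
  constructor
  · intro ha
    have h1 : ∀ i, 0 ≤ a i := by
      intro i
      have := ha.1 i
      have h2 : 0 ≤ (a i : ℝ) := by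
        rcases (div_nonneg_iff.1 this) with h | h
        · exact h.1
        · linarith [h.2]
      exact_mod_cast h2
    refine ⟨fun i => (a i).toNat, ?_, ?_⟩
    · have h3 := ha.2
      rw [← Finset.sum_div, div_le_one hn'] at h3
      show ∑ i, (a i).toNat ≤ n
      have h4 : ((∑ i, (a i).toNat : ℕ) : ℤ) = ∑ i, a i := by
        push_cast
        exact Finset.sum_congr rfl (fun i _ => Int.toNat_of_nonneg (h1 i))
      have h5 : (∑ i, a i : ℤ) ≤ n := by exact_mod_cast h3
      omega
    · funext i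
      exact Int.toNat_of_nonneg (h1 i)
  · rintro ⟨b, hb, rfl⟩
    refine ⟨fun i => ?_, ?_⟩
    · simp only [toZ]; positivity
    · rw [← Finset.sum_div, div_le_one hn']
      simp only [toZ]
      have : ∑ i, b i ≤ n := hb
      exact_mod_cast this

theorem volume_S (k : ℕ) : volume.real (S k) = 1 / (k.factorial : ℝ) := by
  have h1 := tendsto_pts (S_convex k) (S_isCompact k)
  have h2 := tendsto_sx k
  refine tendsto_nhds_unique h1 (h2.congr' ?_)
  filter_upwards [eventually_gt_atTop 0] with n hn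
  rw [pts_S hn, Set.ncard_image_of_injective _ toZ_injective]

end Pool.Agent.TH264.MC
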